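import Pool.Agent.Helper45.FC.OLa

/-!
# Project FC (MP_766b49_co), packet OL: one level of the construction
-/

set_option autoImplicit false

namespace Pool.Agent.Helper45.FC.OL

open Pool.Agent.Helper3.FC
open scoped Classical BigOperators

theorem ex_single (a : ℕ) (x : ℝ) (φ : ℕ → ℝ) : ex (Finsupp.single a x) φ = x * φ a := by
  unfold ex
  exact Finsupp.sum_single_index (zero_mul _)

theorem ex_sum {ι : Type} (s : Finset ι) (g : ι → ℕ →₀ ℝ) (φ : ℕ → ℝ) :
    ex (∑ i ∈ s, g i) φ = ∑ i ∈ s, ex (g i) φ := by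
  unfold ex
  exact (Finsupp.sum_finsetSum_index (fun a => zero_mul _) (fun a b c => add_mul _ _ _)).symm

/-- the set of values of a tuple -/
noncomputable def vals {N : ℕ} {C : Type} [Fintype C] (t : C → Option (Fin N)) : Finset ℕ :=
  Finset.univ.biUnion fun c => (t c).toFinset.image fun x : Fin N => (x : ℕ)

theorem mem_vals {N : ℕ} {C : Type} [Fintype C] {t : C → Option (Fin N)} {u : ℕ} :
    u ∈ vals t ↔ ∃ (c : C) (x : Fin N), t c = some x ∧ (x : ℕ) = u := by
  unfold vals
  simp

theorem card_vals {N : ℕ} {C : Type} [Fintype C] (t : C → Option (Fin N)) :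
    (vals t).card ≤ Fintype.card C := by
  unfold vals
  refine (Finset.card_biUnion_le_card_mul _ _ 1 fun c _ => ?_).trans (by simp)
  refine Finset.card_image_le.trans ?_
  cases t c <;> simp

section

variable (N : ℕ) (nb : ℕ → Finset ℕ) (T C : Type) [Fintype T] [Fintype C] (Q : ℕ)

/-- tuples with a label -/
abbrev P := {t : C → Option (Fin N) // Valid nb t} × Fin Q

/-- new vertices -/
abbrev J := T × P N nb C Q

/-- index of a new vertex -/
noncomputable def idx (j : J N nb T C Q) : ℕ := N + (Fintype.equivFin (J N nb T C Q) j : ℕ)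

/-- the new size -/
noncomputable def size : ℕ := N + Fintype.card (J N nb T C Q)

/-- the new neighbours -/
noncomputable def nb' (v : ℕ) : Finset ℕ :=
  if h : N ≤ v ∧ v < size N nb T C Q then
    vals ((Fintype.equivFin (J N nb T C Q)).symm ⟨v - N, by
      have := h.2
      unfold size at this
      omega⟩).2.1.1
  else nb v

theorem idx_ge (j : J N nb T C Q) : N ≤ idx N nb T C Q j := Nat.le_add_right _ _

theorem idx_lt (j : J N nb T C Q) : idx N nb T C Q j < size N nb T C Q := by
  unfold idx size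
  have := (Fintype.equivFin (J N nb T C Q) j).2
  omega

theorem idx_inj {j j' : J N nb T C Q} (h : idx N nb T C Q j = idx N nb T C Q j') : j = j' := by
  unfold idx at h
  exact (Fintype.equivFin (J N nb T C Q)).injective (Fin.ext (by omega))

theorem idx_surj {v : ℕ} (h1 : N ≤ v) (h2 : v < size N nb T C Q) :
    ∃ j, idx N nb T C Q j = v := by
  unfold size at h2
  refine ⟨(Fintype.equivFin (J N nb T C Q)).symm ⟨v - N, by omega⟩, ?_⟩
  unfold idx
  rw [Equiv.apply_symm_apply]
  show N + (v - N) = v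
  omega

theorem nb'_lt {v : ℕ} (h : v < N) : nb' N nb T C Q v = nb v := by
  unfold nb'
  rw [dif_neg (fun h' => absurd h'.1 (not_le.2 h))]

theorem nb'_idx (j : J N nb T C Q) : nb' N nb T C Q (idx N nb T C Q j) = vals j.2.1.1 := by
  unfold nb'
  rw [dif_pos ⟨idx_ge N nb T C Q j, idx_lt N nb T C Q j⟩]
  have h : (⟨idx N nb T C Q j - N, by
      have := idx_lt N nb T C Q j
      unfold size at this
      have := idx_ge N nb T C Q j
      omega⟩ : Fin (Fintype.card (J N nb T C Q))) = Fintype.equivFin (J N nb T C Q) j := by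
    apply Fin.ext
    show N + (Fintype.equivFin (J N nb T C Q) j : ℕ) - N = _
    omega
  rw [h, Equiv.symm_apply_apply]

variable (base : T → C → ℕ →₀ ℝ)

/-- product weight -/
noncomputable def Pr (τ : T) (t : C → Option (Fin N)) : ℝ := ∏ c, wt (base τ c) (t c)

/-- weight of the valid tuples -/
noncomputable def Z (τ : T) : ℝ :=
  ∑ a : {t : C → Option (Fin N) // Valid nb t}, Pr N T C base τ a.1

/-- the weight of a labelled tuple -/
noncomputable def W (τ : T) (p : P N nb C Q) : ℝ :=
  Pr N T C base τ p.1.1 / (Z N nb T C base τ * Q)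

/-- the new weights -/
noncomputable def nu (τ : T) : ℕ →₀ ℝ :=
  ∑ p : P N nb C Q, Finsupp.single (idx N nb T C Q (τ, p)) (W N nb T C Q base τ p)

theorem ex_nu (τ : T) (φ : ℕ → ℝ) : ex (nu N nb T C Q base τ) φ =
    ∑ p : P N nb C Q, W N nb T C Q base τ p * φ (idx N nb T C Q (τ, p)) := by
  unfold nu
  rw [ex_sum]
  exact Finset.sum_congr rfl fun p _ => ex_single _ _ _

theorem nu_apply (τ : T) (v : ℕ) : nu N nb T C Q base τ v =
    ∑ p : P N nb C Q, if idx N nb T C Q (τ, p) = v then W N nb T C Q base τ p else 0 := by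
  unfold nu
  rw [Finsupp.finsetSum_apply]
  exact Finset.sum_congr rfl fun p _ => by rw [Finsupp.single_apply]

theorem nu_idx (τ : T) (p : P N nb C Q) :
    nu N nb T C Q base τ (idx N nb T C Q (τ, p)) = W N nb T C Q base τ p := by
  rw [nu_apply, Finset.sum_eq_single p]
  · rw [if_pos rfl]
  · intro p' _ hp'
    rw [if_neg]
    intro h
    exact hp' (congrArg Prod.snd (idx_inj N nb T C Q h))
  · intro h
    exact absurd (Finset.mem_univ p) h

theorem nu_ne {τ : T} {v : ℕ} (h : nu N nb T C Q base τ v ≠ 0) :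
    ∃ p, idx N nb T C Q (τ, p) = v := by
  by_contra h1
  push Not at h1
  apply h
  rw [nu_apply]
  exact Finset.sum_eq_zero fun p _ => if_neg (h1 p)

end

theorem t : OLStmt := by
  intro d N nb hG T _ C _ hC base hs hN hb Q hQ
  have hQ0 : (0 : ℝ) < Q := by exact_mod_cast hQ
  have hPr : ∀ τ (t : C → Option (Fin N)), 0 ≤ Pr N T C base τ t := fun τ t =>
    Finset.prod_nonneg fun c _ => wt_nonneg (hs τ c) _
  have hPr1 : ∀ τ (t : C → Option (Fin N)), Pr N T C base τ t ≤ 1 := fun τ t =>
    Finset.prod_le_one (fun c _ => wt_nonneg (hs τ c) _)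
      (fun c _ => wt_le_one (hs τ c) (hN τ c) _)
  have hZ : ∀ τ, 1 / 2 ≤ Z N nb T C base τ := by
    intro τ
    refine (half hG (base τ) (hs τ) (hN τ) (hb τ)).trans (le_of_eq ?_)
    rw [← Finset.sum_filter]
    exact Finset.sum_subtype (Finset.univ.filter fun t : C → Option (Fin N) => Valid nb t)
      (by simp) (fun t => Pr N T C base τ t)
  have hZ0 : ∀ τ, 0 < Z N nb T C base τ := fun τ => lt_of_lt_of_le (by norm_num) (hZ τ)
  have hW : ∀ τ p, 0 ≤ W N nb T C Q base τ p := fun τ p =>
    div_nonneg (hPr τ _) (mul_pos (hZ0 τ) hQ0).le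
  have hnu : ∀ τ v, 0 ≤ nu N nb T C Q base τ v := by
    intro τ v
    rw [nu_apply]
    refine Finset.sum_nonneg fun p _ => ?_
    split_ifs
    · exact hW τ p
    · exact le_rfl
  have hkey : ∀ τ (φ : ℕ → ℝ) (ψ : (C → Option (Fin N)) → ℝ), (∀ t, 0 ≤ ψ t) →
      (∀ p : P N nb C Q, φ (idx N nb T C Q (τ, p)) ≤ ψ p.1.1) →
      ex (nu N nb T C Q base τ) φ ≤ 2 * ∑ t, Pr N T C base τ t * ψ t := by
    intro τ φ ψ h0 h1
    rw [ex_nu]
    have h2 : ∀ p : P N nb C Q, W N nb T C Q base τ p * φ (idx N nb T C Q (τ, p)) ≤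
        2 / Q * (Pr N T C base τ p.1.1 * ψ p.1.1) := by
      intro p
      refine (mul_le_mul_of_nonneg_left (h1 p) (hW τ p)).trans ?_
      rw [← mul_assoc]
      refine mul_le_mul_of_nonneg_right ?_ (h0 _)
      unfold W
      rw [div_le_iff₀ (mul_pos (hZ0 τ) hQ0)]
      have h3 : 2 / (Q : ℝ) * Pr N T C base τ p.1.1 * (Z N nb T C base τ * Q) =
          2 * Z N nb T C base τ * Pr N T C base τ p.1.1 := by
        field_simp
      rw [h3]
      have h4 := hPr τ p.1.1
      have h5 := hZ τ
      nlinarith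
    refine (Finset.sum_le_sum fun p _ => h2 p).trans ?_
    rw [Fintype.sum_prod_type]
    have h3 : ∀ a : {t : C → Option (Fin N) // Valid nb t},
        ∑ _y : Fin Q, 2 / (Q : ℝ) * (Pr N T C base τ a.1 * ψ a.1) =
        2 * (Pr N T C base τ a.1 * ψ a.1) := by
      intro a
      rw [Finset.sum_const, Finset.card_univ, Fintype.card_fin, nsmul_eq_mul]
      field_simp
    rw [Finset.sum_congr rfl fun a _ => h3 a, ← Finset.mul_sum]
    refine mul_le_mul_of_nonneg_left ?_ (by norm_num)
    rw [← Finset.sum_subtype (Finset.univ.filter fun t : C → Option (Fin N) => Valid nb t)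
      (by simp) (fun t => Pr N T C base τ t * ψ t)]
    exact Finset.sum_le_sum_of_subset_of_nonneg (Finset.filter_subset _ _)
      fun t _ _ => mul_nonneg (hPr τ t) (h0 t)
  refine ⟨size N nb T C Q, nb' N nb T C Q, nu N nb T C Q base, Nat.le_add_right _ _,
    fun v hv => nb'_lt N nb T C Q hv, ?_, ?_, ?_, ?_, ?_, ?_, ?_, ?_⟩
  · intro v hv
    by_cases hvN : v < N
    · rw [nb'_lt N nb T C Q hvN]
      obtain ⟨h1, h2, h3⟩ := hG v hvN
      refine ⟨h1, h2, fun a ha b hb => ?_⟩
      rw [nb'_lt N nb T C Q ((h1 b hb).trans hvN)]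
      exact h3 a ha b hb
    · obtain ⟨j, rfl⟩ := idx_surj N nb T C Q (not_lt.1 hvN) hv
      rw [nb'_idx]
      refine ⟨?_, (card_vals _).trans hC, ?_⟩
      · intro u hu
        obtain ⟨c, x, _, rfl⟩ := mem_vals.1 hu
        exact lt_of_lt_of_le x.2 (idx_ge N nb T C Q j)
      · intro a ha b hb
        obtain ⟨c, x, h1, rfl⟩ := mem_vals.1 ha
        obtain ⟨c', x', h2, rfl⟩ := mem_vals.1 hb
        rw [nb'_lt N nb T C Q x'.2]
        exact j.2.1.2 c c' x x' h1 h2
  · intro τ
    refine ⟨hnu τ, ?_⟩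
    rw [ex_nu, Fintype.sum_prod_type]
    have h3 : ∀ a : {t : C → Option (Fin N) // Valid nb t},
        ∑ y : Fin Q, W N nb T C Q base τ (a, y) * 1 =
        Pr N T C base τ a.1 / Z N nb T C base τ := by
      intro a
      show ∑ y : Fin Q, Pr N T C base τ a.1 / (Z N nb T C base τ * Q) * 1 = _
      rw [Finset.sum_const, Finset.card_univ, Fintype.card_fin, nsmul_eq_mul]
      have := (hZ0 τ).ne'
      field_simp
    rw [Finset.sum_congr rfl fun a _ => h3 a, ← Finset.sum_div]
    exact div_self (hZ0 τ).ne'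
  · intro τ v hv
    obtain ⟨p, rfl⟩ := nu_ne N nb T C Q base hv
    exact ⟨idx_ge N nb T C Q _, idx_lt N nb T C Q _⟩
  · intro τ v
    by_cases hv : nu N nb T C Q base τ v = 0
    · rw [hv]
      positivity
    · obtain ⟨p, rfl⟩ := nu_ne N nb T C Q base hv
      rw [nu_idx]
      unfold W
      rw [div_le_div_iff₀ (mul_pos (hZ0 τ) hQ0) hQ0]
      have h1 := hPr1 τ p.1.1
      have h2 := hZ τ
      nlinarith
  · intro τ τ' v h1 h2
    obtain ⟨p, rfl⟩ := nu_ne N nb T C Q base h1
    obtain ⟨p', hp'⟩ := nu_ne N nb T C Q base h2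
    exact (congrArg Prod.fst (idx_inj N nb T C Q hp')).symm
  · intro τ v hv u hu
    obtain ⟨p, rfl⟩ := nu_ne N nb T C Q base hv
    rw [nu_idx] at hv
    rw [nb'_idx] at hu
    obtain ⟨c, x, h1, rfl⟩ := mem_vals.1 hu
    refine ⟨c, fun h0 => hv ?_⟩
    unfold W Pr
    rw [Finset.prod_eq_zero (Finset.mem_univ c), zero_div]
    have h1' : p.1.1 c = some x := h1
    rw [h1']
    exact h0
  · intro τ u
    by_cases hu : u < N
    · refine (hkey τ _ (fun t => ∑ c, if t c = some ⟨u, hu⟩ then 1 else 0)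
        (fun t => Finset.sum_nonneg fun c _ => by split_ifs <;> norm_num) ?_).trans ?_
      · intro p
        rw [nb'_idx]
        split_ifs with h
        · obtain ⟨c, x, h1, h2⟩ := mem_vals.1 h
          have h3 : x = ⟨u, hu⟩ := Fin.ext h2
          have h4 := Finset.single_le_sum (f := fun c => if p.1.1 c = some ⟨u, hu⟩ then (1 : ℝ) else 0)
            (fun c _ => by split_ifs <;> norm_num) (Finset.mem_univ c)
          refine le_trans (le_of_eq ?_) h4
          have h1' : p.1.1 c = some x := h1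
          show (1 : ℝ) = if p.1.1 c = some ⟨u, hu⟩ then 1 else 0
          rw [if_pos (by rw [h1', h3])]
        · exact Finset.sum_nonneg fun c _ => by split_ifs <;> norm_num
      · refine mul_le_mul_of_nonneg_left (le_of_eq ?_) (by norm_num)
        have h1 : ∀ t : C → Option (Fin N), Pr N T C base τ t *
            (∑ c, if t c = some ⟨u, hu⟩ then (1 : ℝ) else 0) =
            ∑ c, (∏ x, wt (base τ x) (t x)) * (if t c = some ⟨u, hu⟩ then 1 else 0) := by
          intro t
          rw [Finset.mul_sum]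
          rfl
        rw [Finset.sum_congr rfl fun t _ => h1 t, Finset.sum_comm]
        refine Finset.sum_congr rfl fun c _ => ?_
        exact marg1 (fun c => wt (N := N) (base τ c)) (fun c => wt_sum (hN τ c)) c (some ⟨u, hu⟩)
    · have h0 : ex (nu N nb T C Q base τ) (fun v => if u ∈ nb' N nb T C Q v then 1 else 0) = 0 := by
        rw [ex_nu]
        refine Finset.sum_eq_zero fun p _ => ?_
        rw [nb'_idx, if_neg, mul_zero]
        intro h
        obtain ⟨c, x, _, h2⟩ := mem_vals.1 h
        exact hu (h2 ▸ x.2)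
      rw [h0]
      exact mul_nonneg (by norm_num) (Finset.sum_nonneg fun c _ => (hs τ c).1 u)
  · intro I hI τ
    have hnon : ∀ t : C → Option (Fin N), 0 ≤ ∏ c, (if ∃ x : Fin N, t c = some x ∧ (x : ℕ) ∈ I
        then (0 : ℝ) else 1) := fun t => Finset.prod_nonneg fun c _ => by split_ifs <;> norm_num
    unfold mass
    refine (hkey τ _ (fun t => ∏ c, if ∃ x : Fin N, t c = some x ∧ (x : ℕ) ∈ I
        then (0 : ℝ) else 1) hnon ?_).trans (le_of_eq ?_)
    · intro p
      split_ifs with h
      · refine le_of_eq ?_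
        symm
        refine Finset.prod_eq_one fun c _ => if_neg ?_
        rintro ⟨x, h1, h2⟩
        refine hI _ (idx_lt N nb T C Q _) h x ?_ h2
        rw [nb'_idx]
        exact mem_vals.2 ⟨c, x, h1, rfl⟩
      · exact hnon _
    · rw [show (∑ t, Pr N T C base τ t * ∏ c, (if ∃ x : Fin N, t c = some x ∧ (x : ℕ) ∈ I
          then (0 : ℝ) else 1)) = ∑ t : C → Option (Fin N), ∏ c, (wt (base τ c) (t c) *
            (if ∃ x : Fin N, t c = some x ∧ (x : ℕ) ∈ I then (0 : ℝ) else 1)) from
          Finset.sum_congr rfl fun t _ => Finset.prod_mul_distrib.symm,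
        ← Fintype.prod_sum (fun c (o : Option (Fin N)) => wt (base τ c) o *
            (if ∃ x : Fin N, o = some x ∧ (x : ℕ) ∈ I then (0 : ℝ) else 1))]
      refine congrArg (fun z => 2 * z) (Finset.prod_congr rfl fun c _ => ?_)
      rw [Fintype.sum_option, ex_fin (hN τ c)]
      have h1 : wt (N := N) (base τ c) none = 1 - ∑ u : Fin N, base τ c u := by
        show 1 - ex (base τ c) (fun _ => 1) = _
        rw [ex_fin (hN τ c)]
        simp
      rw [h1]
      have h2 : ∀ x : Fin N, wt (base τ c) (some x) *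
          (if ∃ x' : Fin N, some x = some x' ∧ (x' : ℕ) ∈ I then (0 : ℝ) else 1) =
          base τ c x - base τ c x * (if (x : ℕ) ∈ I then 1 else 0) := by
        intro x
        show base τ c x * _ = _
        by_cases hx : (x : ℕ) ∈ I
        · rw [if_pos ⟨x, rfl, hx⟩, if_pos hx]
          ring
        · rw [if_neg, if_neg hx]
          · ring
          · rintro ⟨x', h3, h4⟩
            rw [Option.some.inj h3] at hx
            exact hx h4
      rw [Finset.sum_congr rfl fun x _ => h2 x, Finset.sum_sub_distrib, if_neg]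
      · ring
      · rintro ⟨x, h3, _⟩
        exact absurd h3 (by simp)

end Pool.Agent.Helper45.FC.OL
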