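import Pool.Agent.Helper3.FC.Goals

/-!
# Project FC (MP_766b49_co), packet OL: product weights
-/

set_option autoImplicit false

namespace Pool.Agent.Helper45.FC.OL

open Pool.Agent.Helper3.FC
open scoped Classical BigOperators

theorem ex_fin {N : ℕ} {f : ℕ →₀ ℝ} (hf : ∀ u, f u ≠ 0 → u < N) (φ : ℕ → ℝ) :
    ex f φ = ∑ u : Fin N, f u * φ u := by
  unfold ex
  rw [Finsupp.sum_of_support_subset f (s := Finset.range N) (fun u hu => Finset.mem_range.2
    (hf u (Finsupp.mem_support_iff.1 hu))) (fun u x => x * φ u) (fun u _ => zero_mul _),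
    Finset.sum_range]

/-- the weight of a neighbour -/
noncomputable def wt {N : ℕ} (f : ℕ →₀ ℝ) : Option (Fin N) → ℝ
  | none => 1 - ex f (fun _ => 1)
  | some u => f u

theorem wt_nonneg {N : ℕ} {f : ℕ →₀ ℝ} (hf : IsSub f) (o : Option (Fin N)) : 0 ≤ wt f o := by
  cases o with
  | none => exact sub_nonneg.2 hf.2
  | some u => exact hf.1 u

theorem wt_sum {N : ℕ} {f : ℕ →₀ ℝ} (hf : ∀ u, f u ≠ 0 → u < N) :
    ∑ o : Option (Fin N), wt f o = 1 := by
  rw [Fintype.sum_option]
  show 1 - ex f (fun _ => 1) + ∑ u : Fin N, f u = 1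
  rw [ex_fin hf]
  simp

theorem wt_le_one {N : ℕ} {f : ℕ →₀ ℝ} (h1 : IsSub f) (hf : ∀ u, f u ≠ 0 → u < N)
    (o : Option (Fin N)) : wt f o ≤ 1 := by
  rw [← wt_sum hf]
  exact Finset.single_le_sum (fun o _ => wt_nonneg h1 o) (Finset.mem_univ o)

section

variable {C O : Type} [Fintype C] [Fintype O] [DecidableEq O]

theorem marg1 (w : C → O → ℝ) (hw : ∀ c, ∑ o, w c o = 1) (c : C) (o : O) :
    ∑ t : C → O, (∏ x, w x (t x)) * (if t c = o then 1 else 0) = w c o := by
  have h1 : ∀ t : C → O, (∏ x, w x (t x)) * (if t c = o then 1 else 0) =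
      ∏ x, (w x (t x) * (if x = c then (if t x = o then 1 else 0) else 1)) := by
    intro t
    rw [Finset.prod_mul_distrib, Finset.prod_ite_eq' Finset.univ c
      (fun x => (if t x = o then (1 : ℝ) else 0)), if_pos (Finset.mem_univ c)]
  rw [Finset.sum_congr rfl fun t _ => h1 t,
    ← Fintype.prod_sum (fun x o' => w x o' * (if x = c then (if o' = o then 1 else 0) else 1)),
    Finset.prod_eq_single c]
  · simp
  · intro x _ hx
    simp [hx, hw]
  · intro h
    exact absurd (Finset.mem_univ c) h

theorem marg2 (w : C → O → ℝ) (hw : ∀ c, ∑ o, w c o = 1) (c c' : C) (hc : c ≠ c') (o o' : O) :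
    ∑ t : C → O, (∏ x, w x (t x)) * ((if t c = o then 1 else 0) * (if t c' = o' then 1 else 0)) =
      w c o * w c' o' := by
  have h1 : ∀ t : C → O,
      (∏ x, w x (t x)) * ((if t c = o then 1 else 0) * (if t c' = o' then 1 else 0)) =
      ∏ x, (w x (t x) * ((if x = c then (if t x = o then 1 else 0) else 1) *
        (if x = c' then (if t x = o' then 1 else 0) else 1))) := by
    intro t
    rw [Finset.prod_mul_distrib, Finset.prod_mul_distrib, Finset.prod_ite_eq' Finset.univ c
      (fun x => (if t x = o then (1 : ℝ) else 0)), if_pos (Finset.mem_univ c),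
      Finset.prod_ite_eq' Finset.univ c'
      (fun x => (if t x = o' then (1 : ℝ) else 0)), if_pos (Finset.mem_univ c')]
  rw [Finset.sum_congr rfl fun t _ => h1 t,
    ← Fintype.prod_sum (fun x o'' => w x o'' * ((if x = c then (if o'' = o then 1 else 0) else 1) *
        (if x = c' then (if o'' = o' then 1 else 0) else 1))),
    Finset.prod_eq_mul c c' hc]
  · simp [hc, hc.symm]
  · intro x _ hx
    simp [hx.1, hx.2, hw]
  · intro h
    exact absurd (Finset.mem_univ c) h
  · intro h
    exact absurd (Finset.mem_univ c') h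

omit [DecidableEq O] in
theorem total (w : C → O → ℝ) (hw : ∀ c, ∑ o, w c o = 1) : ∑ t : C → O, ∏ x, w x (t x) = 1 := by
  rw [← Fintype.prod_sum]
  simp [hw]

end

/-- valid tuples -/
def Valid {N : ℕ} {C : Type} (nb : ℕ → Finset ℕ) (t : C → Option (Fin N)) : Prop :=
  ∀ c c' (u u' : Fin N), t c = some u → t c' = some u' → (u : ℕ) ∉ nb u'

/-- most of the weight is on valid tuples -/
theorem half {d N : ℕ} {nb : ℕ → Finset ℕ} (hG : Good d N nb) {C : Type} [Fintype C]
    (b : C → ℕ →₀ ℝ) (hs : ∀ c, IsSub (b c)) (hN : ∀ c u, b c u ≠ 0 → u < N)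
    (hb : ∑ c, ∑ c', ex (b c') (fun u' => ex (b c) (fun u => if u ∈ nb u' then 1 else 0)) ≤ 1 / 2) :
    1 / 2 ≤ ∑ t : C → Option (Fin N), (if Valid nb t then ∏ c, wt (b c) (t c) else 0) := by
  have hw : ∀ c, ∑ o : Option (Fin N), wt (b c) o = 1 := fun c => wt_sum (hN c)
  have htot := total (fun c => wt (N := N) (b c)) hw
  have hP : ∀ t : C → Option (Fin N), 0 ≤ ∏ c, wt (b c) (t c) := fun t =>
    Finset.prod_nonneg fun c _ => wt_nonneg (hs c) _
  have hsplit : ∑ t : C → Option (Fin N), (if Valid nb t then ∏ c, wt (b c) (t c) else 0) +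
      ∑ t : C → Option (Fin N), (if Valid nb t then 0 else ∏ c, wt (b c) (t c)) = 1 := by
    rw [← htot, ← Finset.sum_add_distrib]
    refine Finset.sum_congr rfl fun t _ => ?_
    split_ifs <;> simp
  have hle : ∑ t : C → Option (Fin N), (if Valid nb t then 0 else ∏ c, wt (b c) (t c)) ≤ 1 / 2 := by
    refine le_trans ?_ hb
    have h1 : ∀ t : C → Option (Fin N), (if Valid nb t then 0 else ∏ c, wt (b c) (t c)) ≤
        ∑ q : C × C × Fin N × Fin N, (if (q.2.2.1 : ℕ) ∈ nb q.2.2.2 then (1 : ℝ) else 0) *
          ((∏ c, wt (b c) (t c)) * ((if t q.1 = some q.2.2.1 then 1 else 0) *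
            (if t q.2.1 = some q.2.2.2 then 1 else 0))) := by
      intro t
      have hterm : ∀ q : C × C × Fin N × Fin N,
          0 ≤ (if (q.2.2.1 : ℕ) ∈ nb q.2.2.2 then (1 : ℝ) else 0) *
          ((∏ c, wt (b c) (t c)) * ((if t q.1 = some q.2.2.1 then 1 else 0) *
            (if t q.2.1 = some q.2.2.2 then 1 else 0))) := by
        intro q
        have := hP t
        split_ifs <;> simp [this]
      split_ifs with hv
      · exact Finset.sum_nonneg fun q _ => hterm q
      · unfold Valid at hv
        push Not at hv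
        obtain ⟨c, c', u, u', h2, h3, h4⟩ := hv
        have h5 := Finset.single_le_sum (fun q _ => hterm q) (Finset.mem_univ (c, c', u, u'))
        refine le_trans (le_of_eq ?_) h5
        simp [h2, h3, h4]
    refine (Finset.sum_le_sum fun t _ => h1 t).trans ?_
    rw [Finset.sum_comm]
    have h2 : ∀ q : C × C × Fin N × Fin N, (∑ t : C → Option (Fin N),
        (if (q.2.2.1 : ℕ) ∈ nb q.2.2.2 then (1 : ℝ) else 0) *
          ((∏ c, wt (b c) (t c)) * ((if t q.1 = some q.2.2.1 then 1 else 0) *
            (if t q.2.1 = some q.2.2.2 then 1 else 0)))) ≤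
        b q.2.1 q.2.2.2 * (b q.1 q.2.2.1 * (if (q.2.2.1 : ℕ) ∈ nb q.2.2.2 then 1 else 0)) := by
      rintro ⟨c, c', u, u'⟩
      rw [← Finset.mul_sum]
      by_cases hcc : c = c'
      · subst hcc
        have h3 : ∀ t : C → Option (Fin N), (if (u : ℕ) ∈ nb u' then (1 : ℝ) else 0) *
            ((∏ c, wt (b c) (t c)) * ((if t c = some u then 1 else 0) *
            (if t c = some u' then 1 else 0))) = 0 := by
          intro t
          by_cases h4 : (u : ℕ) ∈ nb u'
          · have h5 : u ≠ u' := by
              intro h6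
              have h7 := (hG u' u'.2).1 u h4
              rw [h6] at h7
              exact lt_irrefl _ h7
            by_cases h8 : t c = some u
            · have h9 : t c ≠ some u' := by
                rw [h8]
                intro h10
                exact h5 (Option.some.inj h10)
              simp [h9]
            · simp [h8]
          · simp [h4]
        have h4 : (if (u : ℕ) ∈ nb u' then (1 : ℝ) else 0) * ∑ t : C → Option (Fin N),
            ((∏ c, wt (b c) (t c)) * ((if t c = some u then 1 else 0) *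
            (if t c = some u' then 1 else 0))) = 0 := by
          rw [Finset.mul_sum]
          exact Finset.sum_eq_zero fun t _ => h3 t
        refine le_trans (le_of_eq h4) ?_
        have h5 := (hs c).1 u
        have h6 := (hs c).1 u'
        show 0 ≤ b c u' * (b c u * _)
        split_ifs <;> positivity
      · refine le_of_eq ?_
        show (if (u : ℕ) ∈ nb u' then (1 : ℝ) else 0) * ∑ t : C → Option (Fin N),
            ((∏ c, wt (b c) (t c)) * ((if t c = some u then 1 else 0) *
            (if t c' = some u' then 1 else 0))) =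
            b c' u' * (b c u * (if (u : ℕ) ∈ nb u' then 1 else 0))
        rw [marg2 (fun c => wt (N := N) (b c)) hw c c' hcc (some u) (some u')]
        show _ * (b c u * b c' u') = _
        ring
    refine (Finset.sum_le_sum fun q _ => h2 q).trans (le_of_eq ?_)
    rw [Fintype.sum_prod_type]
    refine Finset.sum_congr rfl fun c _ => ?_
    rw [Fintype.sum_prod_type]
    refine Finset.sum_congr rfl fun c' _ => ?_
    rw [Fintype.sum_prod_type, Finset.sum_comm, ex_fin (hN c')]
    refine Finset.sum_congr rfl fun u' _ => ?_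
    rw [ex_fin (hN c), Finset.mul_sum]
  linarith

end Pool.Agent.Helper45.FC.OL
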